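import Pool.Agent.helper63.KO.Seq

/-!
# The ring and its matrices
-/

set_option autoImplicit false

open Module Polynomial

namespace Pool.Agent.helper63.KO

variable {F : Type*} [Field F]

theorem countable_FA [Countable F] : Countable (FA F) := by
  have e : FA F ≃ (FreeMonoid (Fin 2) →₀ F) :=
    (FreeAlgebra.equivMonoidAlgebraFreeMonoid (R := F) (X := Fin 2)).toEquiv.trans
      MonoidAlgebra.coeffEquiv
  have : Countable (FreeMonoid (Fin 2)) := inferInstanceAs (Countable (List (Fin 2)))
  exact e.countable_iff.2 inferInstance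

/-- the congruence defined by a family of functionals -/
def con (p : ℕ → FA F) : RingCon (FA F) where
  r x y := ∀ (j : ℕ) (f' f : FA F), phi (p j) (f' * (x - y) * f) = 0
  iseqv :=
    { refl := fun x j f' f => by rw [sub_self, mul_zero, zero_mul, map_zero]
      symm := fun {x y} h j f' f => by
        have := h j f' f
        rw [← neg_sub, mul_neg, neg_mul, map_neg, this, neg_zero]
      trans := fun {x y z} h h' j f' f => by
        rw [← sub_add_sub_cancel x y z, mul_add, add_mul, map_add, h j f' f, h' j f' f, add_zero] }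
  add' := fun {a b c d} h h' j f' f => by
    rw [add_sub_add_comm, mul_add, add_mul, map_add, h j f' f, h' j f' f, add_zero]
  mul' := fun {a b c d} h h' j f' f => by
    have e : f' * (a * c - b * d) * f = f' * (a - b) * (c * f) + (f' * b) * (c - d) * f := by
      noncomm_ring
    rw [e, map_add, h j f' (c * f), h' j (f' * b) f, add_zero]

section matrices

variable {K : Type*} [Field K] [Algebra F K] (bas : Basis (Fin 2) F K) (w : K)

/-- the matrix `a + b w` -/
noncomputable def XM : Matrix (Fin 2) (Fin 2) (FA F) := fun i k =>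
  (1 : Matrix (Fin 2) (Fin 2) F) i k • FreeAlgebra.ι F 0 +
    Algebra.leftMulMatrix bas w i k • FreeAlgebra.ι F 1

theorem eps_XM (i k : Fin 2) : eps (XM bas w i k) = 0 := by
  unfold XM
  rw [map_add, map_smul, map_smul, eps_ι, eps_ι]
  simp

theorem der_XM (c i k : Fin 2) : der c (XM bas w i k) = algebraMap F (FA F)
    (Algebra.leftMulMatrix bas (if c = 0 then 1 else w) i k) := by
  unfold XM
  rw [map_add, map_smul, map_smul, der_ι, der_ι, Algebra.algebraMap_eq_smul_one]
  fin_cases c <;> simp

theorem phi_XM (s : FA F) : ∀ m : ℕ, ((XM bas w) ^ m).map (phi s) =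
    Algebra.leftMulMatrix bas ((zeta w s).coeff m) := by
  have key : ∀ b s : FA F, (∀ m : ℕ, ((XM bas w) ^ m).map (phi s) =
      Algebra.leftMulMatrix bas ((zeta w s).coeff m)) →
      ∀ m : ℕ, ((XM bas w) ^ m).map (phi (s * b)) =
      Algebra.leftMulMatrix bas ((zeta w (s * b)).coeff m) := by
    intro b
    induction b using FreeAlgebra.induction with
    | grade0 r =>
      intro s hs m
      have e1 : s * algebraMap F (FA F) r = r • s := by
        rw [Algebra.smul_def, Algebra.commutes]
      rw [e1, map_smul, Polynomial.coeff_smul, map_smul, ← hs m]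
      ext i k
      simp [phi_apply]
    | grade1 c =>
      intro s hs m
      have hz : zeta w (s * FreeAlgebra.ι F c) = zeta w s * (C (if c = 0 then 1 else w) * X) := by
        rw [map_mul]
        congr 1
        unfold zeta
        rw [FreeAlgebra.lift_ι_apply]
      have hphi : ∀ u, phi (s * FreeAlgebra.ι F c) u = phi s (der c u) := by
        intro u
        rw [phi_apply, phi_apply, map_mul, Dr_ι, Module.End.mul_apply]
      cases m with
      | zero =>
        rw [hz, ← mul_assoc, Polynomial.mul_coeff_zero, Polynomial.coeff_X_zero, mul_zero, map_zero,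
          pow_zero]
        ext i k
        rw [Matrix.map_apply, hphi, Matrix.one_apply]
        split <;> simp
      | succ m =>
        rw [hz, ← mul_assoc, Polynomial.coeff_mul_X, mul_comm, Polynomial.coeff_C_mul, map_mul,
          ← hs m, pow_succ']
        ext i k
        rw [Matrix.map_apply, hphi, Matrix.mul_apply, Matrix.mul_apply, map_sum, map_sum]
        refine Finset.sum_congr rfl fun l _ => ?_
        rw [der_mul, eps_XM, zero_smul, zero_add, der_XM, Matrix.map_apply, ← Algebra.smul_def,
          map_smul, smul_eq_mul]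
    | mul a b ha hb =>
      intro s hs
      rw [← mul_assoc]
      exact hb _ (ha s hs)
    | add a b ha hb =>
      intro s hs m
      have h1 := ha s hs m
      have h2 := hb s hs m
      rw [mul_add, map_add, Polynomial.coeff_add, map_add, ← h1, ← h2]
      ext i k
      simp [phi_apply]
  have h := key s 1 (fun m => by
    rw [map_one, Polynomial.coeff_one]
    ext i k
    rw [Matrix.map_apply, phi_apply, map_one, Module.End.one_apply]
    cases m with
    | zero =>
      rw [pow_zero, Matrix.one_apply, if_pos rfl, map_one, Matrix.one_apply]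
      split <;> simp
    | succ m =>
      rw [if_neg (Nat.succ_ne_zero m), map_zero, pow_succ', Matrix.mul_apply, map_sum]
      simp [eps_XM])
  rwa [one_mul] at h

end matrices

theorem one_add_pow {R : Type*} [Ring R] (h2 : (2 : R) = 0) (y : R) (e : ℕ) :
    (1 + y) ^ 2 ^ e = 1 + y ^ 2 ^ e := by
  induction e with
  | zero => simp
  | succ e ih =>
    rw [pow_succ, pow_mul, ih, pow_mul]
    have : (1 + y ^ 2 ^ e) ^ 2 = 1 + (y ^ 2 ^ e) ^ 2 + 2 * y ^ 2 ^ e := by noncomm_ring
    rw [this, h2, zero_mul, add_zero]

theorem two_eq_zero_F : (2 : ZMod 2) = 0 := by decide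

theorem zmod_cases : ∀ c : ZMod 2, c = 0 ∨ c = 1 := by decide

/-- **Matrices over a periodic ring need not be periodic.** -/
theorem main : ∃ (R : Type) (_ : Ring R),
    (∀ x : R, ∃ m k : ℕ, 0 < m ∧ 0 < k ∧ m ≠ k ∧ x ^ m = x ^ k) ∧
    ∃ A : Matrix (Fin 2) (Fin 2) R, ∀ m k : ℕ, 0 < m → 0 < k → m ≠ k → A ^ m ≠ A ^ k := by
  classical
  have : Fact (Nat.Prime 2) := ⟨Nat.prime_two⟩
  let F := ZMod 2
  let K := GaloisField 2 2
  have hfr : finrank F K = 2 := GaloisField.finrank 2 (by norm_num)
  have hfd : FiniteDimensional F K := Module.finite_of_finrank_pos (by omega)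
  let bas : Basis (Fin 2) F K := Module.finBasisOfFinrankEq F K hfr
  obtain ⟨w, hw⟩ : ∃ w : K, w ∉ Set.range (algebraMap F K) := by
    by_contra hcon
    push Not at hcon
    have hs : Function.Surjective (algebraMap F K) := hcon
    have h1 : Nat.card K ≤ Nat.card F := Nat.card_le_card_of_surjective _ hs
    have h2 : Nat.card K = 2 ^ 2 := GaloisField.card 2 2 (by norm_num)
    have h3 : Nat.card F = 2 := by simp [F]
    omega
  have hcount : Countable (FA F) := countable_FA
  have hne : Nonempty {x : FA F // eps x = 0} := ⟨⟨0, map_zero _⟩⟩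
  obtain ⟨g, hgsurj⟩ := exists_surjective_nat {x : FA F // eps x = 0}
  obtain ⟨p, D, hD, hz, hvan⟩ := core hw (fun k => (g k : FA F)) (fun k => (g k).2)
  let R := (con p).Quotient
  let π : FA F →+* R := (con p).mk'
  have hπ : ∀ x y : FA F, π x = π y ↔ ∀ (j : ℕ) (f' f : FA F), phi (p j) (f' * (x - y) * f) = 0 :=
    fun x y => RingCon.eq (con p)
  have hnil : ∀ x : FA F, eps x = 0 → ∃ m, 0 < m ∧ π x ^ m = 0 := by
    intro x hx
    obtain ⟨k, hk⟩ := hgsurj ⟨x, hx⟩
    obtain ⟨m, hm, h⟩ := hvan k
    refine ⟨m, hm, ?_⟩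
    rw [← map_pow, ← map_zero π, hπ]
    intro j f' f
    rw [sub_zero]
    have := h j f' f
    rwa [hk] at this
  refine ⟨R, inferInstance, fun x => ?_, ?_⟩
  · obtain ⟨a, rfl⟩ : ∃ a, π a = x := RingCon.mk'_surjective (con p) x
    have h2 : (2 : R) = 0 := by
      have h3 : (2 : FA F) = algebraMap F (FA F) 2 := (map_ofNat (algebraMap F (FA F)) 2).symm
      have h4 : (2 : R) = π 2 := (map_ofNat π 2).symm
      rw [h4, h3, two_eq_zero_F, map_zero, map_zero]
    rcases zmod_cases (eps a) with h0 | h1
    · obtain ⟨m, hm, h⟩ := hnil a h0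
      exact ⟨m, m + 1, hm, by omega, by omega, by rw [pow_succ, h, zero_mul]⟩
    · obtain ⟨m, hm, h⟩ := hnil (a - 1) (by rw [map_sub, map_one, h1, sub_self])
      obtain ⟨e, he⟩ : ∃ e, m ≤ 2 ^ e := ⟨m, Nat.lt_two_pow_self.le⟩
      have h5 : π a = 1 + π (a - 1) := by rw [map_sub, map_one]; abel
      have h6 : ∀ e', e ≤ e' → (π a) ^ 2 ^ e' = 1 := by
        intro e' he'
        rw [h5, one_add_pow h2]
        have : m ≤ 2 ^ e' := he.trans (Nat.pow_le_pow_right (by norm_num) he')
        rw [pow_eq_zero_of_le this h, add_zero]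
      refine ⟨2 ^ e, 2 ^ (e + 1), by positivity, by positivity, ?_, ?_⟩
      · rw [pow_succ]
        have : 0 < 2 ^ e := by positivity
        omega
      · rw [h6 e le_rfl, h6 (e + 1) (by omega)]
  · refine ⟨(XM bas w).map π, ?_⟩
    have key : ∀ m k : ℕ, m < k → ((XM bas w).map π) ^ m ≠ ((XM bas w).map π) ^ k := by
      intro m k hmk h
      have hpow : ∀ n, ((XM bas w).map π) ^ n = ((XM bas w) ^ n).map π := by
        intro n
        exact (map_pow π.mapMatrix (XM bas w) n).symm
      have hj : m ≤ D m := hD.id_le m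
      have h1 : ((XM bas w).map π) ^ (D m) = ((XM bas w).map π) ^ (D m + (k - m)) := by
        obtain ⟨c, hc⟩ : ∃ c, D m = m + c := ⟨D m - m, by omega⟩
        rw [hc, pow_add, h, ← pow_add]
        congr 1
        omega
      rw [hpow, hpow] at h1
      have h2 : ((XM bas w) ^ (D m)).map (phi (p m)) =
          ((XM bas w) ^ (D m + (k - m))).map (phi (p m)) := by
        ext i l
        have h3 := congrFun (congrFun h1 i) l
        rw [Matrix.map_apply, Matrix.map_apply, hπ] at h3
        have h4 := h3 m 1 1
        rw [one_mul, mul_one, map_sub, sub_eq_zero] at h4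
        exact h4
      rw [phi_XM, phi_XM] at h2
      have h3 := Algebra.leftMulMatrix_injective bas h2
      rw [Polynomial.coeff_eq_zero_of_natDegree_lt (n := D m + (k - m))
        (by rw [(hz m).1]; omega), ← (hz m).1] at h3
      exact (hz m).2 (Polynomial.leadingCoeff_eq_zero.1 h3)
    intro m k _ _ hne
    rcases Nat.lt_or_gt_of_ne hne with h | h
    · exact key m k h
    · exact (key k m h).symm

end Pool.Agent.helper63.KO
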