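import Mathlib

/-!
# Left derivatives on the free algebra, the operators `T_g` and the vanishing lemma
-/

set_option autoImplicit false

open Module

namespace Pool.Agent.helper63.KO

variable {F : Type*} [Field F]

/-- the free algebra on two generators -/
abbrev FA (F : Type*) [Field F] : Type _ := FreeAlgebra F (Fin 2)

/-- the constant term -/
noncomputable def eps : FA F →ₐ[F] F := FreeAlgebra.lift F (fun _ => (0 : F))

@[simp] theorem eps_ι (i : Fin 2) : eps (FreeAlgebra.ι F i) = 0 := by
  unfold eps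
  rw [FreeAlgebra.lift_ι_apply]

/-- auxiliary matrix representation -/
noncomputable def dmat (c : Fin 2) : FA F →ₐ[F] Matrix (Fin 2) (Fin 2) (FA F) :=
  FreeAlgebra.lift F (fun i => !![0, if i = c then 1 else 0; 0, FreeAlgebra.ι F i])

theorem dmat_aux (c : Fin 2) (u : FA F) : (dmat c u) 1 0 = 0 ∧
    (dmat c u) 0 0 = algebraMap F (FA F) (eps u) ∧ (dmat c u) 1 1 = u := by
  induction u using FreeAlgebra.induction with
  | grade0 r => simp [Algebra.algebraMap_eq_smul_one]
  | grade1 i => simp [dmat]
  | mul a b ha hb =>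
    obtain ⟨a1, a2, a3⟩ := ha
    obtain ⟨b1, b2, b3⟩ := hb
    rw [map_mul]
    simp only [Matrix.mul_apply, Fin.sum_univ_two, a1, a2, a3, b1, b2, b3, map_mul]
    simp
  | add a b ha hb =>
    obtain ⟨a1, a2, a3⟩ := ha
    obtain ⟨b1, b2, b3⟩ := hb
    rw [map_add]
    simp only [Matrix.add_apply, a1, a2, a3, b1, b2, b3, map_add]
    simp

/-- the left derivative: removes a first letter `c` -/
noncomputable def der (c : Fin 2) : FA F →ₗ[F] FA F where
  toFun u := (dmat c u) 0 1
  map_add' a b := by rw [map_add]; rfl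
  map_smul' r a := by rw [map_smul]; rfl

theorem der_mul (c : Fin 2) (u v : FA F) : der c (u * v) = eps u • der c v + der c u * v := by
  show (dmat c (u * v)) 0 1 = _
  rw [map_mul, Matrix.mul_apply, Fin.sum_univ_two, (dmat_aux c u).2.1, (dmat_aux c v).2.2,
    ← Algebra.smul_def]
  rfl

@[simp] theorem der_ι (c i : Fin 2) : der c (FreeAlgebra.ι F i) = if i = c then 1 else 0 := by
  show (dmat c (FreeAlgebra.ι F i)) 0 1 = _
  simp [dmat]

@[simp] theorem der_one (c : Fin 2) : der c (1 : FA F) = 0 := by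
  show (dmat c (1 : FA F)) 0 1 = _
  simp

@[simp] theorem der_algebraMap (c : Fin 2) (r : F) : der c (algebraMap F (FA F) r) = 0 := by
  rw [Algebra.algebraMap_eq_smul_one, map_smul, der_one, smul_zero]

/-- the action of the free algebra through derivatives (right factor first) -/
noncomputable def Dr : FA F →ₐ[F] Module.End F (FA F) := FreeAlgebra.lift F der

@[simp] theorem Dr_ι (c : Fin 2) : Dr (FreeAlgebra.ι F c) = der c := by
  unfold Dr
  rw [FreeAlgebra.lift_ι_apply]

/-- the pairing -/
noncomputable def phi (s : FA F) : FA F →ₗ[F] F := eps.toLinearMap ∘ₗ Dr s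

theorem phi_apply (s u : FA F) : phi s u = eps (Dr s u) := rfl

/-- polynomials in `τ` with coefficients in the free algebra -/
abbrev WW (F : Type*) [Field F] : Type _ := ℕ →₀ FA F

/-- multiplication by `τ` -/
noncomputable def tau : Module.End F (WW F) := Finsupp.lmapDomain (FA F) F Nat.succ

@[simp] theorem tau_single (j : ℕ) (u : FA F) :
    tau (Finsupp.single j u : WW F) = Finsupp.single (j + 1) u := by
  simp [tau, Finsupp.lmapDomain_apply, Finsupp.mapDomain_single]

theorem tau_pow_single (i j : ℕ) (u : FA F) :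
    (tau ^ i : Module.End F (WW F)) (Finsupp.single j u) = Finsupp.single (j + i) u := by
  induction i with
  | zero => simp
  | succ i ih => rw [pow_succ', Module.End.mul_apply, ih, tau_single]; rfl

/-- the operator of a letter -/
noncomputable def Tc (g : FA F) (c : Fin 2) : Module.End F (WW F) :=
  Finsupp.mapRange.linearMap (der c) +
    tau ∘ₗ Finsupp.mapRange.linearMap (eps.toLinearMap.smulRight (der c g))

theorem Tc_single (g : FA F) (c : Fin 2) (j : ℕ) (u : FA F) :
    Tc g c (Finsupp.single j u) =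
      Finsupp.single j (der c u) + Finsupp.single (j + 1) (eps u • der c g) := by
  simp [Tc, Finsupp.mapRange_single]

/-- the action `T_g` (right factor first) -/
noncomputable def TT (g : FA F) : FA F →ₐ[F] Module.End F (WW F) := FreeAlgebra.lift F (Tc g)

@[simp] theorem TT_ι (g : FA F) (c : Fin 2) : TT g (FreeAlgebra.ι F c) = Tc g c := by
  unfold TT
  rw [FreeAlgebra.lift_ι_apply]

theorem TT_comm (g s : FA F) : Commute (TT g s) (tau : Module.End F (WW F)) := by
  induction s using FreeAlgebra.induction with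
  | grade0 r => rw [AlgHom.commutes]; exact Algebra.commutes r _
  | grade1 c =>
    rw [TT_ι]
    refine Finsupp.lhom_ext fun j u => ?_
    rw [Module.End.mul_apply, Module.End.mul_apply, tau_single, Tc_single, Tc_single, map_add,
      tau_single, tau_single]
  | mul a b ha hb => rw [map_mul]; exact ha.mul_left hb
  | add a b ha hb => rw [map_add]; exact ha.add_left hb

/-- degree in `τ` at most `k` -/
def LE (F : Type*) [Field F] (k : ℕ) : Submodule F (WW F) := Finsupp.supported (FA F) F (Set.Iic k)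

theorem single_mem_LE {j k : ℕ} (h : j ≤ k) (u : FA F) : Finsupp.single j u ∈ LE F k :=
  Finsupp.single_mem_supported F u h

theorem LE_mono {j k : ℕ} (h : j ≤ k) : LE F j ≤ LE F k :=
  Finsupp.supported_mono (Set.Iic_subset_Iic.2 h)

theorem LE_induction {k : ℕ} {p : WW F → Prop} (h0 : p 0) (hadd : ∀ a b, p a → p b → p (a + b))
    (h1 : ∀ j ≤ k, ∀ u, p (Finsupp.single j u)) : ∀ u ∈ LE F k, p u := by
  intro u hu
  have h2 : u = ∑ j ∈ u.support, Finsupp.single j (u j) := by
    conv_lhs => rw [← Finsupp.sum_single u]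
    rfl
  have h3 : ∀ s : Finset ℕ, (∀ j ∈ s, j ≤ k) → p (∑ j ∈ s, Finsupp.single j (u j)) := by
    intro s
    induction s using Finset.induction_on with
    | empty => intro _; simpa using h0
    | insert a s ha ih =>
      intro h
      rw [Finset.sum_insert ha]
      exact hadd _ _ (h1 a (h a (Finset.mem_insert_self a s)) _)
        (ih fun j hj => h j (Finset.mem_insert_of_mem hj))
  rw [h2]
  exact h3 _ fun j hj => (Finsupp.mem_supported F u).1 hu hj

/-- `Θ_m(τ^j u) = u g^(m-j) f` -/
noncomputable def Theta (g f : FA F) (m : ℕ) : WW F →ₗ[F] FA F :=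
  Finsupp.lsum F (fun j => if j ≤ m then LinearMap.mulRight F (g ^ (m - j) * f) else 0)

theorem Theta_single (g f : FA F) (m j : ℕ) (u : FA F) :
    Theta g f m (Finsupp.single j u) = if j ≤ m then u * (g ^ (m - j) * f) else 0 := by
  unfold Theta
  rw [Finsupp.lsum_single]
  split
  · rfl
  · rfl

theorem Theta_der {g : FA F} (hg : eps g = 0) (f : FA F) (m : ℕ) (c : Fin 2) {k : ℕ} (hk : k < m) :
    ∀ u ∈ LE F k, der c (Theta g f m u) = Theta g f m (Tc g c u) := by
  refine LE_induction (by simp) (fun a b ha hb => by rw [map_add, map_add, map_add, map_add, ha, hb])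
    fun j hj u => ?_
  rw [Theta_single, if_pos (by omega), Tc_single, map_add, Theta_single, Theta_single,
    if_pos (by omega), if_pos (by omega), der_mul]
  obtain ⟨e, he⟩ : ∃ e, m - j = e + 1 := ⟨m - j - 1, by omega⟩
  have he2 : m - (j + 1) = e := by omega
  rw [he, he2, pow_succ', mul_assoc, der_mul, hg, zero_smul, zero_add, smul_mul_assoc, add_comm]

theorem Tc_LE (g : FA F) (c : Fin 2) {k : ℕ} : ∀ u ∈ LE F k, Tc g c u ∈ LE F (k + 1) := by
  refine LE_induction (by simp) (fun a b ha hb => by rw [map_add]; exact Submodule.add_mem _ ha hb)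
    fun j hj u => ?_
  rw [Tc_single]
  exact Submodule.add_mem _ (single_mem_LE (by omega) _) (single_mem_LE (by omega) _)

/-- words of `s` have length at most `L` -/
def Len (L : ℕ) (s : FA F) : Prop := ∀ (g f : FA F) (m k : ℕ), eps g = 0 → ∀ u ∈ LE F k,
  TT g s u ∈ LE F (k + L) ∧ (k + L ≤ m → Dr s (Theta g f m u) = Theta g f m (TT g s u))

theorem Len_mono {L M : ℕ} {s : FA F} (h : Len L s) (hLM : L ≤ M) : Len M s :=
  fun g f m k hg u hu => ⟨LE_mono (by omega) (h g f m k hg u hu).1,
    fun hm => (h g f m k hg u hu).2 (by omega)⟩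

theorem Len_add {L : ℕ} {s t : FA F} (h : Len L s) (h' : Len L t) : Len L (s + t) := by
  intro g f m k hg u hu
  obtain ⟨h1, h2⟩ := h g f m k hg u hu
  obtain ⟨h3, h4⟩ := h' g f m k hg u hu
  refine ⟨?_, fun hm => ?_⟩
  · rw [map_add]; exact Submodule.add_mem _ h1 h3
  · rw [map_add, map_add, LinearMap.add_apply, LinearMap.add_apply, map_add, h2 hm, h4 hm]

theorem Len_mul {L M : ℕ} {s t : FA F} (h : Len L s) (h' : Len M t) : Len (L + M) (s * t) := by
  intro g f m k hg u hu
  obtain ⟨h3, h4⟩ := h' g f m k hg u hu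
  obtain ⟨h1, h2⟩ := h g f m (k + M) hg _ h3
  refine ⟨?_, fun hm => ?_⟩
  · rw [map_mul, Module.End.mul_apply]
    exact LE_mono (by omega) h1
  · rw [map_mul, map_mul, Module.End.mul_apply, Module.End.mul_apply, h4 (by omega), h2 (by omega)]

theorem exists_Len (s : FA F) : ∃ L, Len L s := by
  induction s using FreeAlgebra.induction with
  | grade0 r =>
    refine ⟨0, fun g f m k hg u hu => ⟨?_, fun _ => ?_⟩⟩
    · rw [AlgHom.commutes, Module.algebraMap_end_apply]
      exact Submodule.smul_mem _ _ hu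
    · rw [AlgHom.commutes, AlgHom.commutes, Module.algebraMap_end_apply,
        Module.algebraMap_end_apply, map_smul]
  | grade1 c =>
    refine ⟨1, fun g f m k hg u hu => ⟨?_, fun hm => ?_⟩⟩
    · rw [TT_ι]; exact Tc_LE g c u hu
    · rw [TT_ι, Dr_ι]; exact Theta_der hg f m c (by omega) u hu
  | mul a b ha hb =>
    obtain ⟨L, hL⟩ := ha
    obtain ⟨M, hM⟩ := hb
    exact ⟨L + M, Len_mul hL hM⟩
  | add a b ha hb =>
    obtain ⟨L, hL⟩ := ha
    obtain ⟨M, hM⟩ := hb
    exact ⟨max L M, Len_add (Len_mono hL (le_max_left _ _)) (Len_mono hM (le_max_right _ _))⟩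

theorem eps_Theta {g : FA F} (hg : eps g = 0) (f : FA F) {m k : ℕ} (hk : k < m) :
    ∀ u ∈ LE F k, eps (Theta g f m u) = 0 := by
  refine LE_induction (by simp) (fun a b ha hb => by rw [map_add, map_add, ha, hb, add_zero])
    fun j hj u => ?_
  rw [Theta_single, if_pos (by omega)]
  obtain ⟨e, he⟩ : ∃ e, m - j = e + 1 := ⟨m - j - 1, by omega⟩
  rw [he, pow_succ', map_mul, map_mul, map_mul, hg]
  simp

/-- words longer than `L` are not seen by `s` -/
theorem phi_long {L : ℕ} {s : FA F} (h : Len L s) {g : FA F} (hg : eps g = 0) (f' f : FA F) {m : ℕ}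
    (hm : L < m) : phi s (f' * g ^ m * f) = 0 := by
  obtain ⟨h1, h2⟩ := h g f m 0 hg (Finsupp.single 0 f') (single_mem_LE le_rfl f')
  have h3 := h2 (by omega)
  rw [Theta_single, if_pos (Nat.zero_le _), Nat.sub_zero, ← mul_assoc] at h3
  rw [phi_apply, h3]
  exact eps_Theta hg f (k := 0 + L) (by omega) _ h1

/-- a finite-dimensional subspace containing `g`, stable under the derivatives -/
structure Stab (g : FA F) (O : Submodule F (FA F)) : Prop where
  fd : FiniteDimensional F O
  mem : g ∈ O
  stab : ∀ c, ∀ u ∈ O, der c u ∈ O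

/-- `O` inside `WW` -/
noncomputable def O0 (O : Submodule F (FA F)) : Submodule F (WW F) := O.map (Finsupp.lsingle 0)

/-- `O[τ]` -/
noncomputable def OW (O : Submodule F (FA F)) : Submodule F (WW F) :=
  ⨆ i : ℕ, (O0 O).map (tau ^ i : Module.End F (WW F))

theorem single_mem_O0 {O : Submodule F (FA F)} {u : FA F} (hu : u ∈ O) :
    Finsupp.single 0 u ∈ O0 O := ⟨u, hu, rfl⟩

theorem single_mem_OW {O : Submodule F (FA F)} {u : FA F} (hu : u ∈ O) (j : ℕ) :
    Finsupp.single j u ∈ OW O := by
  refine Submodule.mem_iSup_of_mem j ⟨Finsupp.single 0 u, single_mem_O0 hu, ?_⟩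
  rw [tau_pow_single, Nat.zero_add]

theorem OW_induction {O : Submodule F (FA F)} {p : WW F → Prop} (h0 : p 0)
    (hadd : ∀ a b, p a → p b → p (a + b))
    (h1 : ∀ j, ∀ u ∈ O, p (Finsupp.single j u)) : ∀ u ∈ OW O, p u := by
  intro u hu
  induction hu using Submodule.iSup_induction' with
  | mem i u hu =>
    obtain ⟨_, ⟨v, hv, rfl⟩, rfl⟩ := hu
    rw [Finsupp.lsingle_apply, tau_pow_single, Nat.zero_add]
    exact h1 i v hv
  | zero => exact h0
  | add a b _ _ ha hb => exact hadd a b ha hb

theorem TT_OW {g : FA F} {O : Submodule F (FA F)} (hO : Stab g O) (s : FA F) :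
    ∀ u ∈ OW O, TT g s u ∈ OW O := by
  induction s using FreeAlgebra.induction with
  | grade0 r =>
    intro u hu
    rw [AlgHom.commutes, Module.algebraMap_end_apply]
    exact Submodule.smul_mem _ _ hu
  | grade1 c =>
    rw [TT_ι]
    refine OW_induction (by simp) (fun a b ha hb => by rw [map_add]; exact Submodule.add_mem _ ha hb)
      fun j u hu => ?_
    rw [Tc_single]
    exact Submodule.add_mem _ (single_mem_OW (hO.stab c u hu) _)
      (single_mem_OW (O.smul_mem _ (hO.stab c g hO.mem)) _)
  | mul a b ha hb =>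
    intro u hu
    rw [map_mul, Module.End.mul_apply]
    exact ha _ (hb _ hu)
  | add a b ha hb =>
    intro u hu
    rw [map_add, LinearMap.add_apply]
    exact Submodule.add_mem _ (ha _ hu) (hb _ hu)

/-- `T(s) u - d_s u` lies in `O[τ]` -/
theorem TT_sub {g : FA F} {O : Submodule F (FA F)} (hO : Stab g O) (s : FA F) :
    ∀ u : FA F, TT g s (Finsupp.single 0 u) - Finsupp.single 0 (Dr s u) ∈ OW O := by
  induction s using FreeAlgebra.induction with
  | grade0 r =>
    intro u
    rw [AlgHom.commutes, AlgHom.commutes, Module.algebraMap_end_apply,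
      Module.algebraMap_end_apply]
    simp
  | grade1 c =>
    intro u
    rw [TT_ι, Dr_ι, Tc_single, add_sub_cancel_left]
    exact single_mem_OW (O.smul_mem _ (hO.stab c g hO.mem)) _
  | mul a b ha hb =>
    intro u
    rw [map_mul, map_mul, Module.End.mul_apply, Module.End.mul_apply]
    have h1 := TT_OW hO a _ (hb u)
    have h2 := ha (Dr b u)
    have h3 := Submodule.add_mem _ h1 h2
    rw [map_sub] at h3
    simpa using h3
  | add a b ha hb =>
    intro u
    rw [map_add, map_add, LinearMap.add_apply, LinearMap.add_apply, Finsupp.single_add]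
    have := Submodule.add_mem _ (ha u) (hb u)
    convert this using 1
    abel

/-- **Vanishing lemma.** -/
theorem vanishing {g : FA F} (hg : eps g = 0) {O : Submodule F (FA F)} (hO : Stab g O)
    {B : Set (FA F)} {L : ℕ} (hL : ∀ b ∈ B, Len L b) (hB : ∀ b ∈ B, ∀ u ∈ OW O, TT g b u = 0)
    {s : FA F} (hs : s ∈ NonUnitalAlgebra.adjoin F B) (f' f : FA F) {m : ℕ} (hm : 2 * L < m) :
    phi s (f' * g ^ m * f) = 0 := by
  have key : (∀ x ∈ OW O ⊓ LE F L, Dr s (Theta g f m x) = 0) ∧
      ∀ u : FA F, ∃ x ∈ OW O ⊓ LE F L, Dr s (Theta g f m (Finsupp.single 0 u)) =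
        Theta g f m (Finsupp.single 0 (Dr s u) + x) := by
    induction hs using NonUnitalAlgebra.adjoin_induction with
    | mem b hb =>
      refine ⟨fun x hx => ?_, fun u => ?_⟩
      · have h1 := (hL b hb g f m L hg x hx.2).2 (by omega)
        rw [h1, hB b hb x hx.1, map_zero]
      · have h1 := hL b hb g f m 0 hg (Finsupp.single 0 u) (single_mem_LE le_rfl u)
        refine ⟨TT g b (Finsupp.single 0 u) - Finsupp.single 0 (Dr b u), ⟨TT_sub hO b u, ?_⟩, ?_⟩
        · refine Submodule.sub_mem _ (by simpa using h1.1) (single_mem_LE (Nat.zero_le _) _)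
        · rw [h1.2 (by omega)]
          congr 1
          abel
    | add a b _ _ ha hb =>
      refine ⟨fun x hx => ?_, fun u => ?_⟩
      · rw [map_add, LinearMap.add_apply, ha.1 x hx, hb.1 x hx, add_zero]
      · obtain ⟨x, hx, h1⟩ := ha.2 u
        obtain ⟨y, hy, h2⟩ := hb.2 u
        refine ⟨x + y, Submodule.add_mem _ hx hy, ?_⟩
        rw [map_add, LinearMap.add_apply, h1, h2, LinearMap.add_apply, Finsupp.single_add, ← map_add]
        congr 1
        abel
    | zero =>
      refine ⟨fun x hx => by simp, fun u => ⟨0, Submodule.zero_mem _, by simp⟩⟩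
    | mul a b _ _ ha hb =>
      refine ⟨fun x hx => ?_, fun u => ?_⟩
      · rw [map_mul, Module.End.mul_apply, hb.1 x hx, map_zero]
      · obtain ⟨x, hx, h1⟩ := hb.2 u
        obtain ⟨y, hy, h2⟩ := ha.2 (Dr b u)
        refine ⟨y, hy, ?_⟩
        rw [map_mul, Module.End.mul_apply, Module.End.mul_apply, h1, map_add, map_add, ha.1 x hx,
          add_zero, h2]
    | smul r a _ ha =>
      refine ⟨fun x hx => ?_, fun u => ?_⟩
      · rw [map_smul, LinearMap.smul_apply, ha.1 x hx, smul_zero]
      · obtain ⟨x, hx, h1⟩ := ha.2 u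
        refine ⟨r • x, Submodule.smul_mem _ _ hx, ?_⟩
        rw [map_smul, LinearMap.smul_apply, h1, LinearMap.smul_apply, ← map_smul, smul_add,
          Finsupp.smul_single]
  obtain ⟨x, hx, h1⟩ := key.2 f'
  rw [Theta_single, if_pos (Nat.zero_le _), Nat.sub_zero, ← mul_assoc] at h1
  rw [phi_apply, h1]
  exact eps_Theta hg f (k := L) (by omega) _
    (Submodule.add_mem _ (single_mem_LE (Nat.zero_le _) _) hx.2)

/-- finite-dimensional stable subspaces exist -/
theorem exists_Stab (g : FA F) : ∃ O, Stab g O := by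
  induction g using FreeAlgebra.induction with
  | grade0 r =>
    refine ⟨Submodule.span F {1}, inferInstance, ?_, fun c u hu => ?_⟩
    · rw [Algebra.algebraMap_eq_smul_one]
      exact Submodule.smul_mem _ _ (Submodule.mem_span_singleton_self 1)
    · obtain ⟨a, rfl⟩ := Submodule.mem_span_singleton.1 hu
      rw [map_smul, der_one, smul_zero]
      exact Submodule.zero_mem _
  | grade1 i =>
    refine ⟨Submodule.span F {1, FreeAlgebra.ι F i}, ?_, ?_, fun c u hu => ?_⟩
    · exact FiniteDimensional.span_of_finite F (Set.toFinite _)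
    · exact Submodule.subset_span (by simp)
    · obtain ⟨a, b, rfl⟩ := Submodule.mem_span_pair.1 hu
      rw [map_add, map_smul, map_smul, der_one, der_ι, smul_zero, zero_add]
      refine Submodule.smul_mem _ _ ?_
      split
      · exact Submodule.subset_span (by simp)
      · exact Submodule.zero_mem _
  | mul a b ha hb =>
    obtain ⟨O1, h1⟩ := ha
    obtain ⟨O2, h2⟩ := hb
    have := h1.fd
    have := h2.fd
    refine ⟨O2 ⊔ O1.map (LinearMap.mulRight F b), inferInstance, ?_, fun c u hu => ?_⟩
    · exact Submodule.mem_sup_right ⟨a, h1.mem, rfl⟩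
    · obtain ⟨x, hx, _, ⟨y, hy, rfl⟩, rfl⟩ := Submodule.mem_sup.1 hu
      rw [map_add, LinearMap.mulRight_apply, der_mul]
      refine Submodule.add_mem _ (Submodule.mem_sup_left (h2.stab c x hx)) (Submodule.add_mem _ ?_ ?_)
      · exact Submodule.mem_sup_left (O2.smul_mem _ (h2.stab c b h2.mem))
      · exact Submodule.mem_sup_right ⟨der c y, h1.stab c y hy, rfl⟩
  | add a b ha hb =>
    obtain ⟨O1, h1⟩ := ha
    obtain ⟨O2, h2⟩ := hb
    have := h1.fd
    have := h2.fd
    refine ⟨O1 ⊔ O2, inferInstance, ?_, fun c u hu => ?_⟩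
    · exact Submodule.add_mem_sup h1.mem h2.mem
    · obtain ⟨x, hx, y, hy, rfl⟩ := Submodule.mem_sup.1 hu
      rw [map_add]
      exact Submodule.add_mem_sup (h1.stab c x hx) (h2.stab c y hy)

end Pool.Agent.helper63.KO
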