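import Pool.Agent.helper63.KO.Rank
import Pool.Agent.helper63.KO.Free

/-!
# Weights and the killing lemma
-/

set_option autoImplicit false

open Module Polynomial

namespace Pool.Agent.helper63.KO

variable {F : Type*} [Field F]

/-- `s` has weight at most `n` -/
def Wt (n : ℕ) (s : FA F) : Prop := ∀ (g : FA F) (O : Submodule F (FA F)), Stab g O →
  ∃ S : Submodule F (WW F), FiniteDimensional F S ∧ finrank F S ≤ n ∧
    (∀ u ∈ O0 O, TT g s u ∈ O0 O ⊔ S) ∧ S ≤ (O0 O ⊔ S).map tau

theorem Wt_mono {n m : ℕ} {s : FA F} (h : Wt n s) (hnm : n ≤ m) : Wt m s := by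
  intro g O hO
  obtain ⟨S, h1, h2, h3, h4⟩ := h g O hO
  exact ⟨S, h1, h2.trans hnm, h3, h4⟩

theorem Wt_letter (c : Fin 2) : Wt 1 (FreeAlgebra.ι F c) := by
  intro g O hO
  refine ⟨Submodule.span F {Finsupp.single 1 (der c g)}, inferInstance, ?_, ?_, ?_⟩
  · refine (finrank_span_le_card _).trans ?_
    simp
  · rintro _ ⟨u, hu, rfl⟩
    rw [TT_ι, Finsupp.lsingle_apply, Tc_single]
    refine Submodule.add_mem_sup (single_mem_O0 (hO.stab c u hu)) ?_
    rw [← Finsupp.smul_single]
    exact Submodule.smul_mem _ _ (Submodule.mem_span_singleton_self _)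
  · rw [Submodule.span_singleton_le_iff_mem]
    refine ⟨Finsupp.single 0 (der c g), Submodule.mem_sup_left
      (single_mem_O0 (hO.stab c g hO.mem)), ?_⟩
    rw [tau_single]

theorem Wt_scalar (r : F) : Wt 0 (algebraMap F (FA F) r) := by
  intro g O hO
  refine ⟨⊥, inferInstance, by simp, ?_, bot_le⟩
  intro u hu
  rw [AlgHom.commutes, Module.algebraMap_end_apply]
  exact Submodule.mem_sup_left (Submodule.smul_mem _ _ hu)

theorem Wt_mul {n m : ℕ} {s t : FA F} (hs : Wt n s) (ht : Wt m t) : Wt (n + m) (s * t) := by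
  intro g O hO
  obtain ⟨S, h1, h2, h3, h4⟩ := hs g O hO
  obtain ⟨T, k1, k2, k3, k4⟩ := ht g O hO
  have hle : O0 O ⊔ S ≤ O0 O ⊔ (S ⊔ T.map (TT g s)) := sup_le_sup_left le_sup_left _
  refine ⟨S ⊔ T.map (TT g s), inferInstance, ?_, ?_, ?_⟩
  · refine (Submodule.finrank_add_le_finrank_add_finrank _ _).trans ?_
    have := Submodule.finrank_map_le (TT g s) T
    omega
  · intro u hu
    rw [map_mul, Module.End.mul_apply]
    obtain ⟨a, ha, b, hb, hab⟩ := Submodule.mem_sup.1 (k3 u hu)
    rw [← hab, map_add]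
    refine Submodule.add_mem _ ?_ ?_
    · exact hle (h3 a ha)
    · exact Submodule.mem_sup_right (Submodule.mem_sup_right ⟨b, hb, rfl⟩)
  · refine sup_le (h4.trans (Submodule.map_mono (sup_le_sup_left le_sup_left _))) ?_
    rintro _ ⟨b, hb, rfl⟩
    obtain ⟨v, hv, rfl⟩ := k4 hb
    obtain ⟨x, hx, y, hy, rfl⟩ := Submodule.mem_sup.1 hv
    refine ⟨TT g s (x + y), ?_, ?_⟩
    · rw [map_add]
      refine Submodule.add_mem _ ?_ ?_
      · exact hle (h3 x hx)
      · exact Submodule.mem_sup_right (Submodule.mem_sup_right ⟨y, hy, rfl⟩)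
    · exact (LinearMap.congr_fun (TT_comm g s).eq (x + y)).symm

theorem Wt_add {n m : ℕ} {s t : FA F} (hs : Wt n s) (ht : Wt m t) : Wt (n + m) (s + t) := by
  intro g O hO
  obtain ⟨S, h1, h2, h3, h4⟩ := hs g O hO
  obtain ⟨T, k1, k2, k3, k4⟩ := ht g O hO
  have hle : O0 O ⊔ S ≤ O0 O ⊔ (S ⊔ T) := sup_le_sup_left le_sup_left _
  have hle' : O0 O ⊔ T ≤ O0 O ⊔ (S ⊔ T) := sup_le_sup_left le_sup_right _
  refine ⟨S ⊔ T, inferInstance, ?_, ?_, ?_⟩
  · refine (Submodule.finrank_add_le_finrank_add_finrank _ _).trans ?_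
    omega
  · intro u hu
    rw [map_add, LinearMap.add_apply]
    exact Submodule.add_mem _ (hle (h3 u hu)) (hle' (k3 u hu))
  · exact sup_le (h4.trans (Submodule.map_mono (sup_le_sup_left le_sup_left _)))
      (k4.trans (Submodule.map_mono (sup_le_sup_left le_sup_right _)))

theorem exists_Wt (s : FA F) : ∃ n, Wt n s := by
  induction s using FreeAlgebra.induction with
  | grade0 r => exact ⟨0, Wt_scalar r⟩
  | grade1 c => exact ⟨1, Wt_letter c⟩
  | mul a b ha hb =>
    obtain ⟨n, hn⟩ := ha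
    obtain ⟨m, hm⟩ := hb
    exact ⟨_, Wt_mul hn hm⟩
  | add a b ha hb =>
    obtain ⟨n, hn⟩ := ha
    obtain ⟨m, hm⟩ := hb
    exact ⟨_, Wt_add hn hm⟩

theorem Wt_pow {n : ℕ} {s : FA F} (hs : Wt n s) (k : ℕ) : Wt (k * n) (s ^ k) := by
  induction k with
  | zero =>
    have := Wt_scalar (F := F) 1
    rw [map_one] at this
    simpa using this
  | succ k ih => rw [pow_succ, Nat.succ_mul]; exact Wt_mul ih hs

/-- rank lemma for `T_g(s)` -/
theorem dependent {n m : ℕ} {s g : FA F} {O : Submodule F (FA F)} (hs : Wt n s) (hO : Stab g O)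
    (hm : n < m) (w : Fin m → WW F) (hw : ∀ j, w j ∈ OW O) :
    ∃ p : Fin m → F[X], p ≠ 0 ∧ ∑ j, TT g (aeval s (p j)) (w j) = 0 := by
  obtain ⟨S, h1, h2, h3, h4⟩ := hs g O hO
  have := hO.fd
  have : FiniteDimensional F (O0 O) := by unfold O0; infer_instance
  obtain ⟨p, hp, h5⟩ := rank_lemma (TT_comm g s) (O0 O) S h3 h4 (by omega : finrank F S < m) w hw
  refine ⟨p, hp, ?_⟩
  rw [← h5]
  refine Finset.sum_congr rfl fun j _ => ?_
  rw [← Polynomial.aeval_algHom_apply]

section zeta

variable {K : Type*} [Field K] [Algebra F K]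

/-- `a ↦ t`, `b ↦ w t` -/
noncomputable def zeta (w : K) : FA F →ₐ[F] K[X] :=
  FreeAlgebra.lift F (fun c => C (if c = 0 then 1 else w) * X)

/-- one residue class of degrees -/
theorem one_class {w : K} (hw : w ∉ Set.range (algebraMap F K)) {Z E0 E1 : K[X]} {D d : ℕ}
    (hZ : Z.natDegree = D) (hD : 1 ≤ D) (hE0 : E0.natDegree = d) (hE00 : E0 ≠ 0)
    (hE1 : E1.natDegree = d) (hl : E1.leadingCoeff = w * E0.leadingCoeff) (P0 P1 : F[X])
    (h : ¬ (P0 = 0 ∧ P1 = 0)) :
    ∃ m, (aeval Z P0 * E0 + aeval Z P1 * E1).natDegree = D * m + d ∧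
      aeval Z P0 * E0 + aeval Z P1 * E1 ≠ 0 := by
  have hZ0 : Z ≠ 0 := by rintro rfl; simp at hZ; omega
  set m := max P0.natDegree P1.natDegree with hm
  have hcoef : ∀ P : F[X], P.natDegree ≤ m → (aeval Z P).natDegree ≤ D * m ∧
      (aeval Z P).coeff (D * m) = algebraMap F K (P.coeff m) * Z.leadingCoeff ^ m := by
    intro P hP
    have e1 : aeval Z P = ∑ i ∈ Finset.range (m + 1), C (algebraMap F K (P.coeff i)) * Z ^ i := by
      rw [Polynomial.aeval_eq_sum_range' (Nat.lt_succ_of_le hP)]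
      refine Finset.sum_congr rfl fun i _ => ?_
      rw [Algebra.smul_def, Polynomial.algebraMap_apply]
    have hdeg : ∀ i ∈ Finset.range (m + 1),
        (C (algebraMap F K (P.coeff i)) * Z ^ i).natDegree ≤ D * i := by
      intro i _
      refine (Polynomial.natDegree_C_mul_le _ _).trans ?_
      rw [Polynomial.natDegree_pow, hZ, mul_comm]
    refine ⟨?_, ?_⟩
    · rw [e1]
      refine Polynomial.natDegree_sum_le_of_forall_le _ _ fun i hi => (hdeg i hi).trans ?_
      exact Nat.mul_le_mul_left _ (Nat.lt_succ_iff.1 (Finset.mem_range.1 hi))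
    · rw [e1, Polynomial.finsetSum_coeff, Finset.sum_range_succ, Finset.sum_eq_zero, zero_add]
      · rw [Polynomial.coeff_C_mul]
        congr 1
        have : D * m = (Z ^ m).natDegree := by rw [Polynomial.natDegree_pow, hZ, mul_comm]
        rw [this]
        exact Polynomial.leadingCoeff_pow Z m
      · intro i hi
        refine Polynomial.coeff_eq_zero_of_natDegree_lt (lt_of_le_of_lt
          (hdeg i (Finset.mem_range.2 ((Finset.mem_range.1 hi).trans (Nat.lt_succ_self m)))) ?_)
        exact Nat.mul_lt_mul_of_pos_left (Finset.mem_range.1 hi) hD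
  obtain ⟨a1, a2⟩ := hcoef P0 (le_max_left _ _)
  obtain ⟨b1, b2⟩ := hcoef P1 (le_max_right _ _)
  have hc : (aeval Z P0 * E0 + aeval Z P1 * E1).coeff (D * m + d) =
      (algebraMap F K (P0.coeff m) + w * algebraMap F K (P1.coeff m)) *
        (Z.leadingCoeff ^ m * E0.leadingCoeff) := by
    rw [Polynomial.coeff_add, Polynomial.coeff_mul_add_eq_of_natDegree_le a1 hE0.le,
      Polynomial.coeff_mul_add_eq_of_natDegree_le b1 hE1.le, a2, b2]
    have e2 : E0.coeff d = E0.leadingCoeff := by rw [Polynomial.leadingCoeff, hE0]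
    have e3 : E1.coeff d = w * E0.leadingCoeff := by rw [← hl, Polynomial.leadingCoeff, hE1]
    rw [e2, e3]
    ring
  have hne : algebraMap F K (P0.coeff m) + w * algebraMap F K (P1.coeff m) ≠ 0 := by
    intro h0
    by_cases h1 : P1.coeff m = 0
    · rw [h1, map_zero, mul_zero, add_zero, map_eq_zero] at h0
      have k0 : P0 = 0 := by
        by_contra hne
        have : m ≠ P0.natDegree := fun e => by
          rw [e] at h0; exact hne (Polynomial.leadingCoeff_eq_zero.1 h0)
        have h5 : m = P1.natDegree := by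
          rcases max_choice P0.natDegree P1.natDegree with h6 | h6
          · exact absurd (hm.trans h6) this
          · exact hm.trans h6
        rw [h5] at h1
        have h7 : P1 = 0 := Polynomial.leadingCoeff_eq_zero.1 h1
        rw [h7, Polynomial.natDegree_zero] at h5
        have h8 : P0.natDegree ≤ m := le_max_left _ _
        omega
      have k1 : P1 = 0 := by
        by_contra hne
        have h5 : m = P1.natDegree := by
          rw [hm, k0, Polynomial.natDegree_zero]; simp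
        rw [h5] at h1
        exact hne (Polynomial.leadingCoeff_eq_zero.1 h1)
      exact h ⟨k0, k1⟩
    · refine hw ⟨-(P0.coeff m / P1.coeff m), ?_⟩
      have h2 : algebraMap F K (P1.coeff m) ≠ 0 := by rwa [ne_eq, map_eq_zero]
      rw [map_neg, map_div₀]
      field_simp
      linear_combination -h0
  have hc0 : (aeval Z P0 * E0 + aeval Z P1 * E1).coeff (D * m + d) ≠ 0 := by
    rw [hc]
    exact mul_ne_zero hne (mul_ne_zero (pow_ne_zero _ (Polynomial.leadingCoeff_ne_zero.2 hZ0))
      (Polynomial.leadingCoeff_ne_zero.2 hE00))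
  refine ⟨m, ?_, fun h0 => hc0 (by rw [h0]; simp)⟩
  refine le_antisymm ?_ (Polynomial.le_natDegree_of_ne_zero hc0)
  refine (Polynomial.natDegree_add_le _ _).trans (max_le ?_ ?_)
  · exact (Polynomial.natDegree_mul_le).trans (by omega)
  · exact (Polynomial.natDegree_mul_le).trans (by omega)

/-- the `2 D` elements are independent over `F[Z]` -/
theorem indep {w : K} (hw : w ∉ Set.range (algebraMap F K)) {Z : K[X]} {D d : ℕ}
    (hZ : Z.natDegree = D) (hD : 1 ≤ D) (E0 E1 : ℕ → K[X])
    (hE0 : ∀ j < D, (E0 j).natDegree = D * d + j ∧ E0 j ≠ 0)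
    (hE1 : ∀ j < D, (E1 j).natDegree = D * d + j ∧
      (E1 j).leadingCoeff = w * (E0 j).leadingCoeff) (P0 P1 : ℕ → F[X])
    (h : ∑ j ∈ Finset.range D, (aeval Z (P0 j) * E0 j + aeval Z (P1 j) * E1 j) = 0) :
    ∀ j < D, P0 j = 0 ∧ P1 j = 0 := by
  classical
  set f : ℕ → K[X] := fun j => aeval Z (P0 j) * E0 j + aeval Z (P1 j) * E1 j with hf
  have hone : ∀ j < D, ¬ (P0 j = 0 ∧ P1 j = 0) → ∃ m, (f j).natDegree = D * m + j ∧ f j ≠ 0 := by
    intro j hj hne
    obtain ⟨m, h1, h2⟩ := one_class hw hZ hD (hE0 j hj).1 (hE0 j hj).2 (hE1 j hj).1 (hE1 j hj).2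
      (P0 j) (P1 j) hne
    exact ⟨m + d, by rw [h1]; ring, h2⟩
  have hnz : ∀ j < D, f j ≠ 0 → ∃ m, (f j).natDegree = D * m + j := by
    intro j hj hne
    have : ¬ (P0 j = 0 ∧ P1 j = 0) := by
      rintro ⟨h1, h2⟩
      exact hne (by simp [hf, h1, h2])
    obtain ⟨m, hm, _⟩ := hone j hj this
    exact ⟨m, hm⟩
  have hsup := Polynomial.degree_sum_eq_of_disjoint f (Finset.range D) (by
    intro i hi j hj hij heq
    simp only [Set.mem_ofPred_eq, Finset.mem_range] at hi hj
    obtain ⟨m, hm⟩ := hnz i hi.1 hi.2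
    obtain ⟨m', hm'⟩ := hnz j hj.1 hj.2
    have h1 : (f i).natDegree = (f j).natDegree := by
      simp only [Function.comp_apply] at heq
      rw [Polynomial.natDegree, Polynomial.natDegree, heq]
    rw [hm, hm'] at h1
    have h2 : i % D = j % D := by
      have e1 : (D * m + i) % D = i % D := Nat.mul_add_mod _ _ _
      have e2 : (D * m' + j) % D = j % D := Nat.mul_add_mod _ _ _
      rw [← e1, ← e2, h1]
    rw [Nat.mod_eq_of_lt hi.1, Nat.mod_eq_of_lt hj.1] at h2
    exact hij h2)
  intro j hj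
  by_contra hne
  obtain ⟨m, _, h2⟩ := hone j hj hne
  have h3 : (Finset.range D).sup (fun i => (f i).degree) = ⊥ := by
    rw [← hsup, h, Polynomial.degree_zero]
  have h4 := Finset.le_sup (f := fun i => (f i).degree) (Finset.mem_range.2 hj)
  rw [h3, le_bot_iff, Polynomial.degree_eq_bot] at h4
  exact h2 h4

/-- the state of the induction -/
structure St (w : K) (p q r : FA F) (D n : ℕ) : Prop where
  hD : 1 ≤ D
  hp : (zeta w p).natDegree = D
  hq : (zeta w q).natDegree = D
  hl : (zeta w q).leadingCoeff = w * (zeta w p).leadingCoeff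
  hr : (zeta w r).natDegree = D + 1
  wt : Wt n p
  lt : n < 2 * D

theorem St.p0 {w : K} {p q r : FA F} {D n : ℕ} (h : St w p q r D n) : zeta w p ≠ 0 := by
  intro h0
  have := h.hp
  rw [h0, Polynomial.natDegree_zero] at this
  have := h.hD
  omega

theorem St.q0 {w : K} {p q r : FA F} {D n : ℕ} (h : St w p q r D n) : zeta w q ≠ 0 := by
  intro h0
  have := h.hq
  rw [h0, Polynomial.natDegree_zero] at this
  have := h.hD
  omega

theorem St.r0 {w : K} {p q r : FA F} {D n : ℕ} (h : St w p q r D n) : zeta w r ≠ 0 := by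
  intro h0
  have := h.hr
  rw [h0, Polynomial.natDegree_zero] at this
  omega

theorem mul_aeval_mem {p e : FA F} {B : NonUnitalSubalgebra F (FA F)} (hp : p ∈ B) (he : e ∈ B)
    (P : F[X]) : aeval p P * e ∈ B := by
  induction P using Polynomial.induction_on' with
  | add a b ha hb => rw [map_add, add_mul]; exact B.add_mem ha hb
  | monomial n a =>
    rw [Polynomial.aeval_monomial, ← Algebra.smul_def, smul_mul_assoc]
    refine SMulMemClass.smul_mem a ?_
    induction n with
    | zero => simpa using he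
    | succ n ih => rw [pow_succ', mul_assoc]; exact B.mul_mem hp ih

theorem pow_mem' {p : FA F} {B : NonUnitalSubalgebra F (FA F)} (hp : p ∈ B) {k : ℕ} (hk : 1 ≤ k) :
    p ^ k ∈ B := by
  obtain ⟨k, rfl⟩ : ∃ j, k = j + 1 := ⟨k - 1, by omega⟩
  induction k with
  | zero => simpa using hp
  | succ k ih => rw [pow_succ]; exact B.mul_mem (ih (by omega)) hp

/-- killing one vector -/
theorem kill_one {w : K} (hw : w ∉ Set.range (algebraMap F K)) {p q r : FA F} {D n : ℕ}
    (h : St w p q r D n) {g : FA F} {O : Submodule F (FA F)} (hO : Stab g O) (v : WW F)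
    (hv : v ∈ OW O) : ∃ u ∈ NonUnitalAlgebra.adjoin F ({p, q, r} : Set (FA F)),
      TT g u v = 0 ∧ zeta w u ≠ 0 := by
  classical
  set B := NonUnitalAlgebra.adjoin F ({p, q, r} : Set (FA F)) with hB
  have hpB : p ∈ B := NonUnitalAlgebra.subset_adjoin F (by simp)
  have hqB : q ∈ B := NonUnitalAlgebra.subset_adjoin F (by simp)
  have hrB : r ∈ B := NonUnitalAlgebra.subset_adjoin F (by simp)
  -- the elements
  let e : ℕ → ℕ → FA F := fun ε j => (if ε = 0 then p else q) * (p ^ (D - j) * r ^ j)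
  have heB : ∀ ε j, j < D → e ε j ∈ B := by
    intro ε j hj
    have h1 : p ^ (D - j) * r ^ j ∈ B := by
      rcases Nat.eq_zero_or_pos j with h0 | h0
      · rw [h0, pow_zero, mul_one]; exact pow_mem' hpB (by omega)
      · exact B.mul_mem (pow_mem' hpB (by omega)) (pow_mem' hrB h0)
    show (if ε = 0 then p else q) * (p ^ (D - j) * r ^ j) ∈ B
    split
    · exact B.mul_mem hpB h1
    · exact B.mul_mem hqB h1
  have hR0 : ∀ j, zeta w p ^ (D - j) * zeta w r ^ j ≠ 0 := fun j =>
    mul_ne_zero (pow_ne_zero _ h.p0) (pow_ne_zero _ h.r0)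
  have hRd : ∀ j < D, (zeta w p ^ (D - j) * zeta w r ^ j).natDegree = D * D + j := by
    intro j hj
    rw [Polynomial.natDegree_mul (pow_ne_zero _ h.p0) (pow_ne_zero _ h.r0),
      Polynomial.natDegree_pow, Polynomial.natDegree_pow, h.hp, h.hr]
    obtain ⟨k, rfl⟩ : ∃ k, D = k + j := ⟨D - j, by omega⟩
    rw [Nat.add_sub_cancel]
    ring
  have he0 : ∀ j, zeta w (e 0 j) = zeta w p * (zeta w p ^ (D - j) * zeta w r ^ j) := by
    intro j
    simp only [e, if_true, map_mul, map_pow]
  have he1 : ∀ j, zeta w (e 1 j) = zeta w q * (zeta w p ^ (D - j) * zeta w r ^ j) := by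
    intro j
    simp only [e, one_ne_zero, if_false, map_mul, map_pow]
  -- index set Fin (2 * D)
  let idx : Fin (2 * D) → ℕ × ℕ := fun i => (i / D, i % D)
  have hDpos : 0 < D := h.hD
  obtain ⟨P, hP, hsum⟩ := dependent h.wt hO h.lt
    (fun i : Fin (2 * D) => TT g (e (i / D) (i % D)) v)
    (fun i => TT_OW hO _ v hv)
  let Q : ℕ → ℕ → F[X] := fun ε j => if hh : ε * D + j < 2 * D then P ⟨ε * D + j, hh⟩ else 0
  have hPQ : ∀ i : Fin (2 * D), P i = Q (i / D) (i % D) := by
    intro i
    have h1 : (i / D) * D + i % D = (i : ℕ) := by rw [mul_comm]; exact Nat.div_add_mod _ _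
    simp only [Q]
    rw [dif_pos (by rw [h1]; exact i.2)]
    congr 1
    exact Fin.ext h1.symm
  have hre : ∀ φ : ℕ → ℕ → K[X],
      ∑ i : Fin (2 * D), φ (i / D) (i % D) = ∑ j ∈ Finset.range D, (φ 0 j + φ 1 j) := by
    intro φ
    rw [Fin.sum_univ_eq_sum_range (fun i => φ (i / D) (i % D)) (2 * D), two_mul,
      Finset.sum_range_add, Finset.sum_add_distrib]
    congr 1
    · refine Finset.sum_congr rfl fun j hj => ?_
      rw [Nat.div_eq_of_lt (Finset.mem_range.1 hj), Nat.mod_eq_of_lt (Finset.mem_range.1 hj)]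
    · refine Finset.sum_congr rfl fun j hj => ?_
      rw [Nat.add_div_left _ hDpos, Nat.add_mod_left, Nat.div_eq_of_lt (Finset.mem_range.1 hj),
        Nat.mod_eq_of_lt (Finset.mem_range.1 hj)]
  refine ⟨∑ i : Fin (2 * D), aeval p (P i) * e (i / D) (i % D), ?_, ?_, ?_⟩
  · refine sum_mem fun i _ => mul_aeval_mem hpB (heB _ _ (Nat.mod_lt _ hDpos)) _
  · rw [map_sum, LinearMap.sum_apply]
    simp only [map_mul, Module.End.mul_apply]
    exact hsum
  · intro h0
    rw [map_sum] at h0
    have h1 : ∑ i : Fin (2 * D), zeta w (aeval p (P i) * e (i / D) (i % D)) =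
        ∑ i : Fin (2 * D), (fun ε j => aeval (zeta w p) (Q ε j) * zeta w (e ε j)) (i / D) (i % D) := by
      refine Finset.sum_congr rfl fun i _ => ?_
      rw [map_mul, ← Polynomial.aeval_algHom_apply, hPQ]
    have h7 := hre (fun ε j => aeval (zeta w p) (Q ε j) * zeta w (e ε j))
    have h0 := h7.symm.trans (h1.symm.trans h0)
    have h2 := indep hw h.hp h.hD (d := D + 1) (fun j => zeta w (e 0 j)) (fun j => zeta w (e 1 j))
      (fun j hj => ⟨by
        rw [he0, Polynomial.natDegree_mul h.p0 (hR0 j), h.hp, hRd j hj]; ring,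
        by rw [he0]; exact mul_ne_zero h.p0 (hR0 j)⟩)
      (fun j hj => ⟨by
        rw [he1, Polynomial.natDegree_mul h.q0 (hR0 j), h.hq, hRd j hj]; ring,
        by simp only [he1, he0, Polynomial.leadingCoeff_mul, h.hl]; ring⟩)
      (fun j => Q 0 j) (fun j => Q 1 j) h0
    refine hP (funext fun i => ?_)
    rw [hPQ]
    have h3 : (i : ℕ) / D < 2 := (Nat.div_lt_iff_lt_mul hDpos).2 i.2
    have h4 := h2 (i % D) (Nat.mod_lt _ hDpos)
    have h6 : (i : ℕ) / D = 0 ∨ (i : ℕ) / D = 1 := by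
      clear h4 hPQ
      generalize (i : ℕ) / D = k at h3
      omega
    rcases h6 with h5 | h5
    · rw [h5]; exact h4.1
    · rw [h5]; exact h4.2

/-- **Killing lemma.** -/
theorem kill {w : K} (hw : w ∉ Set.range (algebraMap F K)) {p q r : FA F} {D n : ℕ}
    (h : St w p q r D n) {g : FA F} {O : Submodule F (FA F)} (hO : Stab g O) :
    ∃ u ∈ NonUnitalAlgebra.adjoin F ({p, q, r} : Set (FA F)),
      (∀ v ∈ OW O, TT g u v = 0) ∧ zeta w u ≠ 0 := by
  classical
  have hpB : p ∈ NonUnitalAlgebra.adjoin F ({p, q, r} : Set (FA F)) :=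
    NonUnitalAlgebra.subset_adjoin F (by simp)
  have key : ∀ t : Finset (WW F), (∀ v ∈ t, v ∈ OW O) →
      ∃ u ∈ NonUnitalAlgebra.adjoin F ({p, q, r} : Set (FA F)),
      (∀ v ∈ t, TT g u v = 0) ∧ zeta w u ≠ 0 := by
    intro t
    induction t using Finset.induction_on with
    | empty => intro _; exact ⟨p, hpB, by simp, h.p0⟩
    | insert a t ha ih =>
      intro ht
      obtain ⟨u, hu, h1, h2⟩ := ih fun v hv => ht v (Finset.mem_insert_of_mem hv)
      obtain ⟨u', hu', h3, h4⟩ := kill_one hw h hO (TT g u a)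
        (TT_OW hO u a (ht a (Finset.mem_insert_self a t)))
      refine ⟨u' * u, mul_mem hu' hu, fun v hv => ?_, ?_⟩
      · rw [map_mul, Module.End.mul_apply]
        rcases Finset.mem_insert.1 hv with rfl | hv
        · exact h3
        · rw [h1 v hv, map_zero]
      · rw [map_mul]; exact mul_ne_zero h4 h2
  have := hO.fd
  let b := Module.finBasis F O
  obtain ⟨u, hu, h1, h2⟩ := key (Finset.univ.image fun i => Finsupp.single 0 (b i : FA F)) (by
    intro v hv
    obtain ⟨i, _, rfl⟩ := Finset.mem_image.1 hv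
    exact single_mem_OW (b i).2 0)
  refine ⟨u, hu, ?_, h2⟩
  refine OW_induction (by simp) (fun a b ha hb => by rw [map_add, ha, hb, add_zero]) fun j v hv => ?_
  have h3 : Finsupp.single j v = (tau ^ j : Module.End F (WW F)) (Finsupp.single 0 v) := by
    rw [tau_pow_single, Nat.zero_add]
  have h4 : TT g u (Finsupp.single 0 v) = 0 := by
    have h5 : v = ∑ i, b.repr ⟨v, hv⟩ i • (b i : FA F) := by
      have h6 := congrArg Subtype.val (b.sum_repr ⟨v, hv⟩)
      refine h6.symm.trans ?_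
      simp only [Submodule.coe_sum, Submodule.coe_smul]
    rw [h5, ← Finsupp.lsingle_apply (R := F), map_sum, map_sum]
    refine Finset.sum_eq_zero fun i _ => ?_
    rw [map_smul, map_smul, Finsupp.lsingle_apply, h1 _ (Finset.mem_image_of_mem _ (Finset.mem_univ i)),
      smul_zero]
  rw [h3]
  have h5 := LinearMap.congr_fun ((TT_comm g u).pow_right j).eq (Finsupp.single 0 v)
  rw [Module.End.mul_apply, Module.End.mul_apply, h4, map_zero] at h5
  exact h5

end zeta

end Pool.Agent.helper63.KO
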