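import Mathlib

/-!
# The rank lemma

`x`, `τ` commuting endomorphisms of an `F`-vector space `W`; `O`, `S` finite-dimensional subspaces with
`x O ≤ O + S` and `S ≤ τ (O + S)`.  Then any `dim S + 1` elements of `F[τ] O` are linearly dependent
over `F[x]`.
-/

set_option autoImplicit false

open Polynomial Module

namespace Pool.Agent.helper63.KO

section

variable {F W : Type*} [Field F] [AddCommGroup W] [Module F W] (x τ : Module.End F W)

/-- `τ` as an `F[x]`-linear map -/
noncomputable def tauL (h : Commute x τ) : AEval' x →ₗ[F[X]] AEval' x :=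
  LinearMap.ofAEval x ((AEval'.of x).toLinearMap ∘ₗ τ) fun m => by
    show AEval'.of x (τ (x m)) = X • AEval'.of x (τ m)
    rw [AEval'.X_smul_of]
    congr 1
    exact (LinearMap.congr_fun h.eq m).symm

theorem tauL_of (h : Commute x τ) (m : W) : tauL x τ h (AEval'.of x m) = AEval'.of x (τ m) := rfl

theorem tauL_pow_of (h : Commute x τ) (m : W) (i : ℕ) :
    (tauL x τ h ^ i) (AEval'.of x m) = AEval'.of x ((τ ^ i) m) := by
  induction i with
  | zero => rfl
  | succ i ih => rw [pow_succ', pow_succ', Module.End.mul_apply, ih, tauL_of]; rfl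

variable {x τ}

/-- step 1 -/
theorem step1 (O S : Submodule F W) [FiniteDimensional F O]
    (hA : ∀ v ∈ O, x v ∈ O ⊔ S) :
    ∃ D : F[X], D ≠ 0 ∧ ∀ v ∈ O, D • AEval'.of x v ∈
      Submodule.span F[X] ((AEval'.of x) '' (S : Set W)) := by
  classical
  set Y := Submodule.span F[X] ((AEval'.of x) '' (S : Set W)) with hY
  have hS : ∀ s ∈ S, AEval'.of x s ∈ Y := fun s hs => Submodule.subset_span ⟨s, hs, rfl⟩
  -- choose the decomposition
  have hdec : ∀ v : O, ∃ p : O × S, x v = p.1 + p.2 := by
    intro v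
    obtain ⟨a, ha, b, hb, hab⟩ := Submodule.mem_sup.1 (hA v v.2)
    exact ⟨(⟨a, ha⟩, ⟨b, hb⟩), hab.symm⟩
  let b := Module.finBasis F O
  choose f hf using hdec
  let d : O →ₗ[F] O := b.constr F (fun i => (f (b i)).1)
  have hd : ∀ v : O, x v - (d v : W) ∈ S := by
    intro v
    have : (S.mkQ ∘ₗ x ∘ₗ O.subtype) = S.mkQ ∘ₗ O.subtype ∘ₗ d := by
      refine b.ext fun i => ?_
      simp only [LinearMap.comp_apply, Submodule.subtype_apply, d, Basis.constr_basis]
      rw [← sub_eq_zero, ← map_sub]
      simp only [Submodule.mkQ_apply]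
      rw [Submodule.Quotient.mk_eq_zero, hf (b i)]
      simp
    have h2 := LinearMap.congr_fun this v
    simp only [LinearMap.comp_apply, Submodule.subtype_apply] at h2
    rw [← sub_eq_zero, ← map_sub, Submodule.mkQ_apply, Submodule.Quotient.mk_eq_zero] at h2
    exact h2
  have key : ∀ (n : ℕ) (v : O), AEval'.of x ((x ^ n) v) - AEval'.of x (((d ^ n) v : O) : W) ∈ Y := by
    intro n
    induction n with
    | zero => intro v; simp
    | succ n ih =>
      intro v
      have e1 : AEval'.of x ((x ^ (n + 1)) v) - AEval'.of x (((d ^ (n + 1)) v : O) : W) =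
          (X : F[X]) • (AEval'.of x ((x ^ n) v) - AEval'.of x (((d ^ n) v : O) : W)) +
            AEval'.of x (x ((d ^ n) v : O) - (d ((d ^ n) v) : O)) := by
        rw [smul_sub, AEval'.X_smul_of, AEval'.X_smul_of, map_sub, pow_succ', pow_succ']
        simp only [Module.End.mul_apply]
        abel
      rw [e1]
      exact Y.add_mem (Y.smul_mem _ (ih v)) (hS _ (hd _))
  have key2 : ∀ (p : F[X]) (v : O),
      p • AEval'.of x (v : W) - AEval'.of x (((aeval d p) v : O) : W) ∈ Y := by
    intro p v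
    induction p using Polynomial.induction_on' with
    | add p q hp hq =>
      have : (p + q) • AEval'.of x (v : W) - AEval'.of x (((aeval d (p + q)) v : O) : W) =
          (p • AEval'.of x (v : W) - AEval'.of x (((aeval d p) v : O) : W)) +
          (q • AEval'.of x (v : W) - AEval'.of x (((aeval d q) v : O) : W)) := by
        rw [add_smul, map_add]
        simp only [LinearMap.add_apply, Submodule.coe_add, map_add]
        abel
      rw [this]
      exact Y.add_mem hp hq
    | monomial n a =>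
      have : (monomial n a : F[X]) • AEval'.of x (v : W) -
          AEval'.of x (((aeval d (monomial n a)) v : O) : W) =
          (C a : F[X]) • (AEval'.of x ((x ^ n) v) - AEval'.of x (((d ^ n) v : O) : W)) := by
        rw [← C_mul_X_pow_eq_monomial, mul_smul, AEval'.X_pow_smul_of, smul_sub]
        congr 1
        rw [map_mul, aeval_C, map_pow, aeval_X, AEval.C_smul]
        rw [← map_smul]
        congr 1
      rw [this]
      exact Y.smul_mem _ (key n v)
  refine ⟨d.charpoly, (LinearMap.charpoly_monic d).ne_zero, fun v hv => ?_⟩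
  have h := key2 d.charpoly ⟨v, hv⟩
  rw [LinearMap.aeval_self_charpoly] at h
  simpa using h

theorem rank_lemma (h : Commute x τ) (O S : Submodule F W) [FiniteDimensional F O]
    [FiniteDimensional F S] (hA : ∀ v ∈ O, x v ∈ O ⊔ S) (hB : S ≤ (O ⊔ S).map τ) {n : ℕ}
    (hn : finrank F S < n) (w : Fin n → W) (hw : ∀ j, w j ∈ ⨆ i, O.map (τ ^ i)) :
    ∃ p : Fin n → F[X], p ≠ 0 ∧ ∑ j, (aeval x (p j)) (w j) = 0 := by
  classical
  obtain ⟨D, hD0, hD⟩ := step1 (x := x) O S hA
  set Y := Submodule.span F[X] ((AEval'.of x) '' (S : Set W)) with hY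
  have hS : ∀ s ∈ S, AEval'.of x s ∈ Y := fun s hs => Submodule.subset_span ⟨s, hs, rfl⟩
  have hDY : ∀ y ∈ Y, D • y ∈ Y.map (tauL x τ h) := by
    intro y hy
    induction hy using Submodule.span_induction with
    | mem y hy =>
      obtain ⟨s, hs, rfl⟩ := hy
      obtain ⟨u, hu, rfl⟩ := hB hs
      obtain ⟨a, ha, b, hb, rfl⟩ := Submodule.mem_sup.1 hu
      refine ⟨D • AEval'.of x (a + b), ?_, ?_⟩
      · rw [map_add, smul_add]
        exact Y.add_mem (hD a ha) (Y.smul_mem _ (hS b hb))
      · rw [map_smul, tauL_of]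
    | zero => simp
    | add a b _ _ ha hb => rw [smul_add]; exact Submodule.add_mem _ ha hb
    | smul r a _ ha => rw [smul_comm]; exact Submodule.smul_mem _ _ ha
  have hDY2 : ∀ (k : ℕ), ∀ y ∈ Y, (D ^ k) • y ∈ Y.map (tauL x τ h ^ k) := by
    intro k
    induction k with
    | zero => intro y hy; simpa using hy
    | succ k ih =>
      intro y hy
      obtain ⟨z, hz, hz2⟩ := ih y hy
      obtain ⟨z', hz', hz2'⟩ := hDY z hz
      refine ⟨z', hz', ?_⟩
      rw [pow_succ, Module.End.mul_apply, hz2', map_smul, hz2, smul_smul, ← pow_succ']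
  have step3 : ∀ I i : ℕ, i ≤ I → ∀ v ∈ O, D ^ (I + 1) • AEval'.of x ((τ ^ i) v) ∈
      Y.map (tauL x τ h ^ I) := by
    intro I i hi v hv
    obtain ⟨z, hz, hz2⟩ := hDY2 (I - i) _ (hD v hv)
    refine ⟨D ^ i • z, Y.smul_mem _ hz, ?_⟩
    have e1 : tauL x τ h ^ I = tauL x τ h ^ i * tauL x τ h ^ (I - i) := by
      rw [← pow_add]; congr 1; omega
    rw [e1, Module.End.mul_apply, map_smul, map_smul, hz2, map_smul, map_smul, tauL_pow_of,
      smul_smul, smul_smul]
    congr 1
    rw [← pow_add, ← pow_succ]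
    congr 1
    omega
  -- a common bound
  have hbd : ∀ u ∈ ⨆ i, O.map (τ ^ i), ∃ I0, ∀ I ≥ I0, D ^ (I + 1) • AEval'.of x u ∈
      Y.map (tauL x τ h ^ I) := by
    intro u hu
    induction hu using Submodule.iSup_induction' with
    | mem i u hu =>
      obtain ⟨v, hv, rfl⟩ := hu
      exact ⟨i, fun I hI => step3 I i hI v hv⟩
    | zero => exact ⟨0, fun I _ => by simp⟩
    | add a b _ _ ha hb =>
      obtain ⟨I1, h1⟩ := ha
      obtain ⟨I2, h2⟩ := hb
      refine ⟨max I1 I2, fun I hI => ?_⟩
      rw [map_add, smul_add]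
      exact Submodule.add_mem _ (h1 I (le_trans (le_max_left _ _) hI))
        (h2 I (le_trans (le_max_right _ _) hI))
  choose I0 hI0 using fun j => hbd (w j) (hw j)
  obtain ⟨I, hI⟩ : ∃ I, ∀ j, I0 j ≤ I :=
    ⟨Finset.univ.sup I0, fun j => Finset.le_sup (f := I0) (Finset.mem_univ j)⟩
  have hmem : ∀ j, D ^ (I + 1) • AEval'.of x (w j) ∈ Y.map (tauL x τ h ^ I) :=
    fun j => hI0 j I (hI j)
  -- generators
  let b := Module.finBasis F S
  let g : Fin (finrank F S) → AEval' x := fun k => (tauL x τ h ^ I) (AEval'.of x (b k : W))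
  have hYspan : Y.map (tauL x τ h ^ I) ≤ Submodule.span F[X] (Set.range g) := by
    rw [hY, Submodule.map_span_le]
    rintro _ ⟨s, hs, rfl⟩
    have h1 := b.sum_repr ⟨s, hs⟩
    have h2 : s = ∑ k, b.repr ⟨s, hs⟩ k • (b k : W) := by
      have h4 := congrArg (Subtype.val) h1
      refine h4.symm.trans ?_
      simp only [Submodule.coe_sum, Submodule.coe_smul]
    rw [h2, map_sum, map_sum]
    refine Submodule.sum_mem _ fun k _ => ?_
    rw [map_smul, ← AEval.C_smul, map_smul]
    exact Submodule.smul_mem _ _ (Submodule.subset_span ⟨k, rfl⟩)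
  have hnLI : ¬ LinearIndependent F[X] (fun j => D ^ (I + 1) • AEval'.of x (w j)) := by
    intro hLI
    have h1 := linearIndependent_le_span_aux' _ hLI (Set.range g) (by
      rintro _ ⟨j, rfl⟩
      exact hYspan (hmem j))
    have h2 : Fintype.card (Set.range g) ≤ finrank F S := by
      simpa using Fintype.card_range_le g
    rw [Fintype.card_fin] at h1
    omega
  rw [Fintype.not_linearIndependent_iff] at hnLI
  obtain ⟨p, hp, j, hj⟩ := hnLI
  refine ⟨fun j => p j * D ^ (I + 1), fun h0 => ?_, ?_⟩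
  · have := congrFun h0 j
    simp only [Pi.zero_apply, mul_eq_zero, pow_eq_zero_iff', hD0, ne_eq, false_and, or_false] at this
    exact hj this
  · have h3 : AEval'.of x (∑ j, (aeval x (p j * D ^ (I + 1))) (w j)) = 0 := by
      rw [map_sum, ← hp]
      refine Finset.sum_congr rfl fun j _ => ?_
      rw [smul_smul]
      exact AEval.of_aeval_smul (a := x) (p j * D ^ (I + 1)) (w j)
    exact (AEval'.of x).map_eq_zero_iff.1 h3

end

end Pool.Agent.helper63.KO
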