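import Pool.Agent.helper63.KO.Kill

/-!
# The inductive construction
-/

set_option autoImplicit false

open Module Polynomial

namespace Pool.Agent.helper63.KO

variable {F : Type*} [Field F] {K : Type*} [Field K] [Algebra F K]

theorem St_base {w : K} (hw : w ∉ Set.range (algebraMap F K)) :
    St w (FreeAlgebra.ι F 0) (FreeAlgebra.ι F 1) (FreeAlgebra.ι F 0 * FreeAlgebra.ι F 0) 1 1 := by
  have hw0 : w ≠ 0 := fun h => hw ⟨0, by rw [map_zero, h]⟩
  have h0 : zeta w (FreeAlgebra.ι F 0) = X := by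
    unfold zeta
    rw [FreeAlgebra.lift_ι_apply]
    simp
  have h1 : zeta w (FreeAlgebra.ι F 1) = C w * X := by
    unfold zeta
    rw [FreeAlgebra.lift_ι_apply]
    simp
  refine ⟨le_rfl, ?_, ?_, ?_, ?_, Wt_letter 0, by norm_num⟩
  · rw [h0, Polynomial.natDegree_X]
  · rw [h1, Polynomial.natDegree_C_mul_X w hw0]
  · rw [h0, h1, Polynomial.leadingCoeff_C_mul_X, Polynomial.leadingCoeff_X, mul_one]
  · rw [map_mul, h0, Polynomial.natDegree_mul Polynomial.X_ne_zero Polynomial.X_ne_zero,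
      Polynomial.natDegree_X]

theorem step {w : K} (hw : w ∉ Set.range (algebraMap F K)) {p q r : FA F} {D n : ℕ}
    (h : St w p q r D n) (g : FA F) : ∃ (p' q' r' : FA F) (D' n' : ℕ), St w p' q' r' D' n' ∧
      D < D' ∧ (∀ b ∈ ({p', q', r'} : Set (FA F)),
        b ∈ NonUnitalAlgebra.adjoin F ({p, q, r} : Set (FA F))) ∧
      ∃ O, Stab g O ∧ ∀ b ∈ ({p', q', r'} : Set (FA F)), ∀ v ∈ OW O, TT g b v = 0 := by
  obtain ⟨O, hO⟩ := exists_Stab g
  obtain ⟨u, hu, hu1, hu2⟩ := kill hw h hO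
  obtain ⟨N, hN⟩ := exists_Wt u
  set B := NonUnitalAlgebra.adjoin F ({p, q, r} : Set (FA F)) with hB
  have hpB : p ∈ B := NonUnitalAlgebra.subset_adjoin F (by simp)
  have hqB : q ∈ B := NonUnitalAlgebra.subset_adjoin F (by simp)
  have hrB : r ∈ B := NonUnitalAlgebra.subset_adjoin F (by simp)
  have hMB : p ^ (N + 1) ∈ B := pow_mem' hpB (by omega)
  have hm0 : zeta w p ^ (N + 1) ≠ 0 := pow_ne_zero _ h.p0
  have hmd : (zeta w p ^ (N + 1)).natDegree = (N + 1) * D := by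
    rw [Polynomial.natDegree_pow, h.hp]
  have hx : ∀ x : FA F, zeta w (u * (x * p ^ (N + 1))) =
      zeta w u * (zeta w x * zeta w p ^ (N + 1)) := by
    intro x
    rw [map_mul, map_mul, map_pow]
  have hdeg : ∀ x : FA F, zeta w x ≠ 0 → (zeta w (u * (x * p ^ (N + 1)))).natDegree =
      (zeta w u).natDegree + ((zeta w x).natDegree + (N + 1) * D) := by
    intro x hx0
    rw [hx, Polynomial.natDegree_mul hu2 (mul_ne_zero hx0 hm0), Polynomial.natDegree_mul hx0 hm0,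
      hmd]
  have hD := h.hD
  refine ⟨u * (p * p ^ (N + 1)), u * (q * p ^ (N + 1)), u * (r * p ^ (N + 1)),
    (zeta w u).natDegree + (D + (N + 1) * D), N + (n + (N + 1) * n), ⟨?_, ?_, ?_, ?_, ?_, ?_, ?_⟩,
    ?_, ?_, O, hO, ?_⟩
  · omega
  · rw [hdeg p h.p0, h.hp]
  · rw [hdeg q h.q0, h.hq]
  · rw [hx, hx]
    simp only [Polynomial.leadingCoeff_mul, h.hl]
    ring
  · rw [hdeg r h.r0, h.hr]; ring
  · exact Wt_mul hN (Wt_mul h.wt (Wt_pow h.wt (N + 1)))
  · have h1 : (N + 1) * (n + 1) ≤ (N + 1) * (2 * D) := Nat.mul_le_mul_left _ h.lt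
    have h2 : (N + 1) * (n + 1) = (N + 1) * n + (N + 1) := by ring
    have h3 : (N + 1) * (2 * D) = 2 * ((N + 1) * D) := by ring
    have h4 := h.lt
    omega
  · have : 0 < (N + 1) * D := Nat.mul_pos (by omega) hD
    omega
  · intro b hb
    simp only [Set.mem_insert_iff, Set.mem_singleton_iff] at hb
    rcases hb with rfl | rfl | rfl
    · exact B.mul_mem hu (B.mul_mem hpB hMB)
    · exact B.mul_mem hu (B.mul_mem hqB hMB)
    · exact B.mul_mem hu (B.mul_mem hrB hMB)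
  · intro b hb v hv
    simp only [Set.mem_insert_iff, Set.mem_singleton_iff] at hb
    rcases hb with rfl | rfl | rfl <;>
    · rw [map_mul, Module.End.mul_apply]
      exact hu1 _ (TT_OW hO _ v hv)

theorem exists_sequence {α : Type*} (R : ℕ → α → α → Prop) (x0 : α) (h : ∀ k x, ∃ y, R k x y) :
    ∃ s : ℕ → α, s 0 = x0 ∧ ∀ k, R k (s k) (s (k + 1)) := by
  choose f hf using h
  exact ⟨fun n => Nat.rec x0 (fun k x => f k x) n, rfl, fun k => hf k _⟩

/-- **The core construction.** -/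
theorem core {w : K} (hw : w ∉ Set.range (algebraMap F K)) (g : ℕ → FA F)
    (hg : ∀ k, eps (g k) = 0) : ∃ (p : ℕ → FA F) (D : ℕ → ℕ), StrictMono D ∧
      (∀ j, (zeta w (p j)).natDegree = D j ∧ zeta w (p j) ≠ 0) ∧
      ∀ k, ∃ m, 0 < m ∧ ∀ (j : ℕ) (f' f : FA F), phi (p j) (f' * g k ^ m * f) = 0 := by
  obtain ⟨s, -, hs⟩ := exists_sequence
    (α := {x : (FA F × FA F × FA F) × (ℕ × ℕ) // St w x.1.1 x.1.2.1 x.1.2.2 x.2.1 x.2.2})
    (fun k x y => x.1.2.1 < y.1.2.1 ∧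
      (∀ b ∈ ({y.1.1.1, y.1.1.2.1, y.1.1.2.2} : Set (FA F)),
        b ∈ NonUnitalAlgebra.adjoin F ({x.1.1.1, x.1.1.2.1, x.1.1.2.2} : Set (FA F))) ∧
      ∃ O, Stab (g k) O ∧ ∀ b ∈ ({y.1.1.1, y.1.1.2.1, y.1.1.2.2} : Set (FA F)),
        ∀ v ∈ OW O, TT (g k) b v = 0)
    ⟨((_, _, _), (_, _)), St_base hw⟩ (fun k x => by
      obtain ⟨p', q', r', D', n', h1, h2, h3, O, hO, h4⟩ := step hw x.2 (g k)
      exact ⟨⟨((p', q', r'), (D', n')), h1⟩, h2, h3, O, hO, h4⟩)
  set B : ℕ → Set (FA F) := fun k => {(s k).1.1.1, (s k).1.1.2.1, (s k).1.1.2.2} with hBdef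
  have hanti : Antitone fun k => NonUnitalAlgebra.adjoin F (B k) :=
    antitone_nat_of_succ_le fun k => NonUnitalAlgebra.adjoin_le (hs k).2.1
  have hpB : ∀ k, (s k).1.1.1 ∈ NonUnitalAlgebra.adjoin F (B k) := fun k =>
    NonUnitalAlgebra.subset_adjoin F (by simp [hBdef])
  refine ⟨fun k => (s k).1.1.1, fun k => (s k).1.2.1, strictMono_nat_of_lt_succ fun k => (hs k).1,
    fun j => ⟨(s j).2.hp, (s j).2.p0⟩, fun k => ?_⟩
  obtain ⟨O, hO, hkill⟩ := (hs k).2.2
  choose L hL using fun x : FA F => exists_Len x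
  set L1 := max (L (s (k + 1)).1.1.1) (max (L (s (k + 1)).1.1.2.1) (L (s (k + 1)).1.1.2.2)) with hL1
  set L2 := (Finset.range (k + 1)).sup fun j => L (s j).1.1.1 with hL2
  have hLB : ∀ b ∈ B (k + 1), Len L1 b := by
    intro b hb
    simp only [hBdef, Set.mem_insert_iff, Set.mem_singleton_iff] at hb
    rcases hb with rfl | rfl | rfl
    · exact Len_mono (hL _) (le_max_left _ _)
    · exact Len_mono (hL _) ((le_max_left _ _).trans (le_max_right _ _))
    · exact Len_mono (hL _) ((le_max_right _ _).trans (le_max_right _ _))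
  refine ⟨2 * L1 + L2 + 1, by omega, fun j f' f => ?_⟩
  rcases Nat.lt_or_ge j (k + 1) with hj | hj
  · have h1 : L (s j).1.1.1 ≤ L2 := Finset.le_sup (f := fun j => L (s j).1.1.1)
      (Finset.mem_range.2 hj)
    exact phi_long (hL (s j).1.1.1) (hg k) f' f (by omega)
  · exact vanishing (hg k) hO hLB hkill (hanti hj (hpB j)) f' f (by omega)

end Pool.Agent.helper63.KO
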